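import Pool.Agent.H17.S4b

set_option autoImplicit false

namespace Pool.Agent.Results.MP_b3d406_nt.Automatic

/-- `S k m n`: the coefficient of `x ^ n` in `(1 - x) ^ (-m) ∏ (1 - x ^ (k ^ i)) ^ (-m (k - 1))`.
The factor `1 / (1 - x ^ (k ^ i))` is the series with coefficient `1` at the multiples of `k ^ i`;
the factors with `i > n` do not affect the coefficient. -/
noncomputable def S (k m n : ℕ) : ℤ :=
  PowerSeries.coeff n ((PowerSeries.mk (fun _ : ℕ => (1 : ℤ))) ^ m * (∏ i ∈ Finset.range (n + 1),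
    PowerSeries.mk (fun j : ℕ => if k ^ i ∣ j then (1 : ℤ) else 0)) ^ (m * (k - 1)))

/-- the largest `s` with `4 ^ s ∣ N` (used for nonzero `N` only) -/
noncomputable def phi4 (N : ℤ) : ℕ := sSup {s : ℕ | (4 : ℤ) ^ s ∣ N}

/-- the 4-kernel of a sequence -/
def kernel4 (e : ℕ → ℕ) : Set (ℕ → ℕ) :=
  {s | ∃ i j : ℕ, j < 4 ^ i ∧ s = fun n => e (4 ^ i * n + j)}

theorem result : ∀ m : ℕ, 1 ≤ m → m % 8 ≠ 6 →
    (∀ n, S 4 m n ≠ 0) ∧ (kernel4 (fun n => phi4 (S 4 m n))).Finite := by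
  intro m hm h6
  refine ⟨fun n => ?_, ?_⟩
  · change Pool.Agent.H17.S4.S _ _ ≠ 0
    by_cases hn : n = 0
    · subst hn; simp [Pool.Agent.H17.S4.S_zero]
    · obtain ⟨y, hy⟩ := Pool.Agent.H17.S4.main m n (by omega) h6 hn
      rw [hy]; exact mul_ne_zero (by positivity) (by omega)
  · refine (Pool.Agent.H17.S4.kernel_finite (fun n => phi4 (S 4 m n))
      (fun r => Pool.Agent.H17.S4.f m r / 2)
      (Pool.Agent.H17.S4.v m + Pool.Agent.H17.S4.v (m + 1) + 4)
      (fun n hn => (Pool.Agent.H17.S4.main m n (by omega) h6 hn).phi)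
      (fun r => (Nat.div_le_self _ _).trans (Pool.Agent.H17.S4.f_le m r))
      (fun r hr => by simp only [Pool.Agent.H17.S4.f_per m r hr])).subset ?_
    rintro s ⟨i, j, hj, rfl⟩
    have e : 4 ^ i = 2 ^ (2 * i) := by rw [pow_mul]; norm_num
    exact ⟨2 * i, j, e ▸ hj, by rw [e]⟩

end Pool.Agent.Results.MP_b3d406_nt.Automatic
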